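import Pool.Agent.Expand.PM

/-!
# MP_74f563_an, n = 2 autonomous (D2), block W, file DW/Chord: plane curves, crossing and chords

`pm2`: Poincaré–Miranda on a rectangle, non-strict.
`crossing` (W4): two curves with linearly independent displacements cross.
`chord` (T1): a curve `γ` with `γ (t + 1) = γ t + (n, 0)` meets its translate by `(c, 0)`.
-/

set_option autoImplicit false

namespace Pool.Agent.DW

open Set Filter Topology

/-- Poincaré–Miranda, strict, on a rectangle. -/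
theorem pm2_strict {f g : ℝ × ℝ → ℝ} {a b c d : ℝ} (hab : a < b) (hcd : c < d)
    (hf : ContinuousOn f (Icc a b ×ˢ Icc c d)) (hg : ContinuousOn g (Icc a b ×ˢ Icc c d))
    (f1 : ∀ y ∈ Icc c d, f (a, y) < 0) (f2 : ∀ y ∈ Icc c d, 0 < f (b, y))
    (g1 : ∀ x ∈ Icc a b, g (x, c) < 0) (g2 : ∀ x ∈ Icc a b, 0 < g (x, d)) :
    ∃ z ∈ Icc a b ×ˢ Icc c d, f z = 0 ∧ g z = 0 := by
  set T : EuclideanSpace ℝ (Fin 2) → ℝ × ℝ := fun x =>
    ((a + b) / 2 + x 0 * ((b - a) / 2), (c + d) / 2 + x 1 * ((d - c) / 2)) with hT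
  have hTc : Continuous T := by
    rw [hT]
    fun_prop
  set Q : Set (EuclideanSpace ℝ (Fin 2)) := {x | ∀ i, |x i - (0 : EuclideanSpace ℝ (Fin 2)) i| ≤ 1}
  have hmaps : MapsTo T Q (Icc a b ×ˢ Icc c d) := by
    intro x hx
    have h0 := hx 0
    have h1 := hx 1
    have z0 : ∀ i, (0 : EuclideanSpace ℝ (Fin 2)) i = 0 := fun i => rfl
    rw [z0, sub_zero, abs_le] at h0 h1
    refine ⟨⟨?_, ?_⟩, ⟨?_, ?_⟩⟩ <;> simp only [hT] <;> nlinarith [h0.1, h0.2, h1.1, h1.2]
  have z0 : ∀ i, (0 : EuclideanSpace ℝ (Fin 2)) i = 0 := fun i => rfl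
  obtain ⟨x, hx, hx0⟩ := Pool.Agent.Expand.poincare_miranda (n := 2) 0 1 one_pos
    (fun x => ![f (T x), g (T x)]) (by
      rw [continuousOn_pi]
      intro i
      fin_cases i
      · exact hf.comp hTc.continuousOn hmaps
      · exact hg.comp hTc.continuousOn hmaps) (by
      intro x hx i hi
      have hm := hmaps hx
      fin_cases i
      · have e : T x = (a, (T x).2) := by
          ext
          · simp only [hT]
            have : x 0 = -1 := by simpa using hi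
            rw [this]
            ring
          · rfl
        show f (T x) < 0
        rw [e]
        exact f1 _ hm.2
      · have e : T x = ((T x).1, c) := by
          ext
          · rfl
          · simp only [hT]
            have : x 1 = -1 := by simpa using hi
            rw [this]
            ring
        show g (T x) < 0
        rw [e]
        exact g1 _ hm.1) (by
      intro x hx i hi
      have hm := hmaps hx
      fin_cases i
      · have e : T x = (b, (T x).2) := by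
          ext
          · simp only [hT]
            have : x 0 = 1 := by simpa using hi
            rw [this]
            ring
          · rfl
        show 0 < f (T x)
        rw [e]
        exact f2 _ hm.2
      · have e : T x = ((T x).1, d) := by
          ext
          · rfl
          · simp only [hT]
            have : x 1 = 1 := by simpa using hi
            rw [this]
            ring
        show 0 < g (T x)
        rw [e]
        exact g2 _ hm.1)
  exact ⟨T x, hmaps hx, congrFun hx0 0, congrFun hx0 1⟩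

/-- Poincaré–Miranda on a rectangle. -/
theorem pm2 {f g : ℝ × ℝ → ℝ} {a b c d : ℝ} (hab : a < b) (hcd : c < d)
    (hf : ContinuousOn f (Icc a b ×ˢ Icc c d)) (hg : ContinuousOn g (Icc a b ×ˢ Icc c d))
    (f1 : ∀ y ∈ Icc c d, f (a, y) ≤ 0) (f2 : ∀ y ∈ Icc c d, 0 ≤ f (b, y))
    (g1 : ∀ x ∈ Icc a b, g (x, c) ≤ 0) (g2 : ∀ x ∈ Icc a b, 0 ≤ g (x, d)) :
    ∃ z ∈ Icc a b ×ˢ Icc c d, f z = 0 ∧ g z = 0 := by
  have hK : IsCompact (Icc a b ×ˢ Icc c d) := isCompact_Icc.prod isCompact_Icc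
  have hne : (Icc a b ×ˢ Icc c d).Nonempty := ⟨(a, c), ⟨le_rfl, hab.le⟩, ⟨le_rfl, hcd.le⟩⟩
  obtain ⟨z, hz, hmin⟩ := hK.exists_isMinOn hne (f := fun z => |f z| + |g z|)
    (hf.abs.add hg.abs)
  have hmz : |f z| + |g z| = 0 := by
    by_contra hne0
    have hpos : 0 < |f z| + |g z| := lt_of_le_of_ne (by positivity) (Ne.symm hne0)
    set m := |f z| + |g z| with hm
    set ε : ℝ := m / (2 * ((b - a) + (d - c))) with hε
    have hs : 0 < (b - a) + (d - c) := by linarith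
    have hεp : 0 < ε := by positivity
    obtain ⟨w, hw, hw1, hw2⟩ := pm2_strict hab hcd
      (f := fun z => f z + ε * (z.1 - (a + b) / 2)) (g := fun z => g z + ε * (z.2 - (c + d) / 2))
      (hf.add (by fun_prop)) (hg.add (by fun_prop)) (by
        intro y hy
        have := f1 y hy
        simp only
        nlinarith) (by
        intro y hy
        have := f2 y hy
        simp only
        nlinarith) (by
        intro x hx
        have := g1 x hx
        simp only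
        nlinarith) (by
        intro x hx
        have := g2 x hx
        simp only
        nlinarith)
    have h1 : |f w| + |g w| ≥ m := hmin hw
    have h2 : |f w| ≤ ε * (b - a) := by
      have e : f w = -(ε * (w.1 - (a + b) / 2)) := by
        have : f w + ε * (w.1 - (a + b) / 2) = 0 := hw1
        linarith
      rw [e, abs_neg, abs_mul, abs_of_pos hεp]
      refine mul_le_mul_of_nonneg_left ?_ hεp.le
      rw [abs_le]
      constructor <;> linarith [hw.1.1, hw.1.2]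
    have h3 : |g w| ≤ ε * (d - c) := by
      have e : g w = -(ε * (w.2 - (c + d) / 2)) := by
        have : g w + ε * (w.2 - (c + d) / 2) = 0 := hw2
        linarith
      rw [e, abs_neg, abs_mul, abs_of_pos hεp]
      refine mul_le_mul_of_nonneg_left ?_ hεp.le
      rw [abs_le]
      constructor <;> linarith [hw.2.1, hw.2.2]
    have h4 : ε * (b - a) + ε * (d - c) = m / 2 := by
      rw [hε]
      field_simp
    linarith
  have h1 := abs_nonneg (f z)
  have h2 := abs_nonneg (g z)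
  exact ⟨z, hz, abs_eq_zero.1 (by linarith), abs_eq_zero.1 (by linarith)⟩

/-- A curve with a displacement stays at bounded distance from the uniform motion. -/
theorem shift_nat {E : Type} [NormedAddCommGroup E] [NormedSpace ℝ E] {γ : ℝ → E} {w : E}
    (h : ∀ t, γ (t + 1) = γ t + w) (t : ℝ) (j : ℤ) : γ (t + j) = γ t + (j : ℝ) • w := by
  have key : ∀ (n : ℕ) (t : ℝ), γ (t + n) = γ t + (n : ℝ) • w := by
    intro n
    induction n with
    | zero => intro t; simp
    | succ n ih =>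
      intro t
      have e : t + ((n + 1 : ℕ) : ℝ) = t + n + 1 := by push_cast; ring
      rw [e, h, ih]
      push_cast
      rw [add_smul, one_smul, add_assoc]
  obtain ⟨n, rfl | rfl⟩ := j.eq_nat_or_neg
  · exact_mod_cast key n t
  · have h1 := key n (t + ((-(n : ℤ) : ℤ) : ℝ))
    have e : t + ((-(n : ℤ) : ℤ) : ℝ) + (n : ℝ) = t := by push_cast; ring
    rw [e] at h1
    push_cast at h1 ⊢
    rw [h1]
    module

theorem near_line {E : Type} [NormedAddCommGroup E] [NormedSpace ℝ E] {γ : ℝ → E} {w : E}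
    (hγ : Continuous γ) (h : ∀ t, γ (t + 1) = γ t + w) : ∃ C : ℝ, 0 ≤ C ∧ ∀ t, ‖γ t - t • w‖ ≤ C := by
  obtain ⟨C, hC⟩ := (isCompact_Icc (a := (0 : ℝ)) (b := 1)).exists_bound_of_continuousOn
    (f := fun t => γ t - t • w) (by fun_prop)
  refine ⟨max C 0, le_max_right _ _, fun t => ?_⟩
  have h1 := shift_nat h (Int.fract t) ⌊t⌋
  rw [Int.fract_add_floor] at h1
  have h2 : γ t - t • w = γ (Int.fract t) - Int.fract t • w := by
    have e : t • w = Int.fract t • w + (⌊t⌋ : ℝ) • w := by rw [← add_smul, Int.fract_add_floor]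
    rw [h1, e]
    abel
  rw [h2]
  exact (hC _ ⟨Int.fract_nonneg t, (Int.fract_lt_one t).le⟩).trans (le_max_left _ _)

/-- (W4) in coordinates: displacements `(p, 0)`-like directions given by two linear forms. -/
theorem crossing_aux {E : Type} [NormedAddCommGroup E] [NormedSpace ℝ E] {γ₁ γ₂ : ℝ → E}
    {w₁ w₂ : E} (h₁ : Continuous γ₁) (h₂ : Continuous γ₂) (p₁ : ∀ t, γ₁ (t + 1) = γ₁ t + w₁)
    (p₂ : ∀ t, γ₂ (t + 1) = γ₂ t + w₂) (ℓ₁ ℓ₂ : E →L[ℝ] ℝ) (a11 : ℓ₁ w₁ = 1) (a12 : ℓ₁ w₂ = 0)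
    (a21 : ℓ₂ w₁ = 0) (a22 : ℓ₂ w₂ = 1) : ∃ s t, ℓ₁ (γ₁ s) = ℓ₁ (γ₂ t) ∧ ℓ₂ (γ₁ s) = ℓ₂ (γ₂ t) := by
  obtain ⟨C₁, hC₁, b₁⟩ := near_line h₁ p₁
  obtain ⟨C₂, hC₂, b₂⟩ := near_line h₂ p₂
  set K : ℝ := (‖ℓ₁‖ + ‖ℓ₂‖) * (C₁ + C₂) + 1 with hK
  have hKp : 0 < K := by positivity
  have est : ∀ (ℓ : E →L[ℝ] ℝ), ‖ℓ‖ ≤ ‖ℓ₁‖ + ‖ℓ₂‖ → ∀ s t : ℝ,
      |ℓ (γ₁ s) - ℓ (γ₂ t) - (s * ℓ w₁ - t * ℓ w₂)| < K := by
    intro ℓ hℓ s t
    have e : ℓ (γ₁ s) - ℓ (γ₂ t) - (s * ℓ w₁ - t * ℓ w₂) =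
        ℓ ((γ₁ s - s • w₁) - (γ₂ t - t • w₂)) := by
      simp only [map_sub, map_smul, smul_eq_mul]
      ring
    rw [e, ← Real.norm_eq_abs]
    refine (ℓ.le_opNorm _).trans_lt ?_
    have h1 : ‖(γ₁ s - s • w₁) - (γ₂ t - t • w₂)‖ ≤ C₁ + C₂ :=
      (norm_sub_le _ _).trans (add_le_add (b₁ s) (b₂ t))
    calc ‖ℓ‖ * ‖(γ₁ s - s • w₁) - (γ₂ t - t • w₂)‖ ≤ (‖ℓ₁‖ + ‖ℓ₂‖) * (C₁ + C₂) :=
          mul_le_mul hℓ h1 (norm_nonneg _) (by positivity)
      _ < K := by rw [hK]; linarith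
  have e1 := est ℓ₁ (by linarith [norm_nonneg ℓ₂])
  have e2 := est ℓ₂ (by linarith [norm_nonneg ℓ₁])
  simp only [a11, a12, a21, a22, mul_one, mul_zero, sub_zero, zero_sub] at e1 e2
  obtain ⟨z, -, hz1, hz2⟩ := pm2 (a := -K) (b := K) (c := -K) (d := K) (by linarith) (by linarith)
    (f := fun z => ℓ₁ (γ₁ z.1) - ℓ₁ (γ₂ z.2)) (g := fun z => ℓ₂ (γ₂ z.2) - ℓ₂ (γ₁ z.1))
    (by fun_prop) (by fun_prop) (by
      intro y _
      have := abs_lt.1 (e1 (-K) y)
      simp only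
      linarith [this.2]) (by
      intro y _
      have := abs_lt.1 (e1 K y)
      simp only
      linarith [this.1]) (by
      intro x _
      have := abs_lt.1 (e2 x (-K))
      simp only
      linarith [this.1]) (by
      intro x _
      have := abs_lt.1 (e2 x K)
      simp only
      linarith [this.2])
  exact ⟨z.1, z.2, sub_eq_zero.1 hz1, (sub_eq_zero.1 hz2).symm⟩

/-- (W4) Two curves of the plane with linearly independent displacements cross. -/
theorem crossing {γ₁ γ₂ : ℝ → ℝ × ℝ} {w₁ w₂ : ℝ × ℝ} (h₁ : Continuous γ₁) (h₂ : Continuous γ₂)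
    (p₁ : ∀ t, γ₁ (t + 1) = γ₁ t + w₁) (p₂ : ∀ t, γ₂ (t + 1) = γ₂ t + w₂)
    (hw : w₁.1 * w₂.2 - w₁.2 * w₂.1 ≠ 0) : ∃ s t, γ₁ s = γ₂ t := by
  set D : ℝ := w₁.1 * w₂.2 - w₁.2 * w₂.1 with hD
  set X : ℝ × ℝ →L[ℝ] ℝ := ContinuousLinearMap.fst ℝ ℝ ℝ
  set Y : ℝ × ℝ →L[ℝ] ℝ := ContinuousLinearMap.snd ℝ ℝ ℝ
  obtain ⟨s, t, e1, e2⟩ := crossing_aux h₁ h₂ p₁ p₂ ((w₂.2 / D) • X - (w₂.1 / D) • Y)
    ((w₁.1 / D) • Y - (w₁.2 / D) • X) (by
      simp [X, Y]
      field_simp
      rw [hD]; ring) (by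
      simp [X, Y]
      field_simp
      ring) (by
      simp [X, Y]
      field_simp
      ring) (by
      simp [X, Y]
      field_simp
      rw [hD])
  refine ⟨s, t, ?_⟩
  simp [X, Y] at e1 e2
  have g1 : w₂.2 * ((γ₁ s).1 - (γ₂ t).1) = w₂.1 * ((γ₁ s).2 - (γ₂ t).2) := by
    field_simp at e1
    linarith
  have g2 : w₁.1 * ((γ₁ s).2 - (γ₂ t).2) = w₁.2 * ((γ₁ s).1 - (γ₂ t).1) := by
    field_simp at e2
    linarith
  have g3 : D * ((γ₁ s).1 - (γ₂ t).1) = 0 := by
    rw [hD]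
    linear_combination w₁.1 * g1 + w₂.1 * g2
  have g4 : D * ((γ₁ s).2 - (γ₂ t).2) = 0 := by
    rw [hD]
    linear_combination w₁.2 * g1 + w₂.2 * g2
  ext
  · have := (mul_eq_zero.1 g3).resolve_left hw
    linarith
  · have := (mul_eq_zero.1 g4).resolve_left hw
    linarith

/-- (T1), the chord lemma: a curve with a horizontal displacement meets all its horizontal
translates.

Proof. Let `s₀` be a time of maximal height and `s₁` one of minimal height. Apply `pm2` to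
`γ t - γ s - (c, 0)`, `s` between `s₀` and `s₁`, `|t| ≤ K`. -/
theorem chord {γ : ℝ → ℝ × ℝ} {a : ℝ} (ha : 0 < a) (hγ : Continuous γ)
    (h : ∀ t, γ (t + 1) = γ t + (a, 0)) (c : ℝ) : ∃ s t, γ t = γ s + (c, 0) := by
  obtain ⟨C, hC, b⟩ := near_line hγ h
  -- the extreme heights
  have hper : Function.Periodic (fun t => (γ t).2) 1 := by
    intro t
    simp only
    rw [h]
    simp
  have hcont : Continuous fun t => (γ t).2 := by fun_prop
  obtain ⟨s₀, hs₀⟩ : ∃ s₀, ∀ t, (γ t).2 ≤ (γ s₀).2 := by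
    obtain ⟨s₀, -, hm⟩ := (isCompact_Icc (a := (0 : ℝ)) (b := 1)).exists_isMaxOn
      ⟨0, le_rfl, zero_le_one⟩ hcont.continuousOn
    refine ⟨s₀, fun t => ?_⟩
    obtain ⟨y, hy, hyt⟩ := hper.exists_mem_Ico₀ one_pos t
    have h1 : (γ t).2 = (γ y).2 := hyt
    rw [h1]
    exact hm ⟨hy.1, hy.2.le⟩
  obtain ⟨s₁, hs₁⟩ : ∃ s₁, ∀ t, (γ s₁).2 ≤ (γ t).2 := by
    obtain ⟨s₁, -, hm⟩ := (isCompact_Icc (a := (0 : ℝ)) (b := 1)).exists_isMinOn
      ⟨0, le_rfl, zero_le_one⟩ hcont.continuousOn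
    refine ⟨s₁, fun t => ?_⟩
    obtain ⟨y, hy, hyt⟩ := hper.exists_mem_Ico₀ one_pos t
    have h1 : (γ t).2 = (γ y).2 := hyt
    rw [h1]
    exact hm ⟨hy.1, hy.2.le⟩
  -- bounds for the first coordinate
  have hfst : ∀ t, |(γ t).1 - t * a| ≤ C := by
    intro t
    have h1 := b t
    have h2 : |(γ t - t • ((a, 0) : ℝ × ℝ)).1| ≤ ‖γ t - t • ((a, 0) : ℝ × ℝ)‖ := by
      rw [← Real.norm_eq_abs]
      exact norm_fst_le _
    have e : (γ t - t • ((a, 0) : ℝ × ℝ)).1 = (γ t).1 - t * a := by simp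
    rw [e] at h2
    linarith
  set p : ℝ → ℝ := fun y => s₀ + y * (s₁ - s₀) with hp
  set K : ℝ := (|s₀| + |s₁| + 1) + (2 * C + |c| + 1) / a with hK
  have hKp : 0 < K := by positivity
  have hpb : ∀ y ∈ Icc (0 : ℝ) 1, |p y| ≤ |s₀| + |s₁| := by
    intro y hy
    have e : p y = (1 - y) * s₀ + y * s₁ := by rw [hp]; ring
    rw [e]
    refine (abs_add_le _ _).trans ?_
    rw [abs_mul, abs_mul, abs_of_nonneg hy.1, abs_of_nonneg (by linarith [hy.2] : 0 ≤ 1 - y)]
    have h1 := abs_nonneg s₀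
    have h2 := abs_nonneg s₁
    nlinarith [hy.1, hy.2]
  have hKa : K * a = (|s₀| + |s₁| + 1) * a + (2 * C + |c| + 1) := by
    rw [hK]
    field_simp
  obtain ⟨z, -, hz1, hz2⟩ := pm2 (a := -K) (b := K) (c := 0) (d := 1) (by linarith) one_pos
    (f := fun z => (γ z.1).1 - (γ (p z.2)).1 - c) (g := fun z => (γ z.1).2 - (γ (p z.2)).2)
    (by
      have : Continuous p := by rw [hp]; fun_prop
      fun_prop) (by
      have : Continuous p := by rw [hp]; fun_prop
      fun_prop) (by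
      intro y hy
      have h1 := abs_le.1 (hfst (-K))
      have h2 := abs_le.1 (hfst (p y))
      have h3 := abs_le.1 (hpb y hy)
      have h4 := neg_abs_le c
      simp only
      have h5 : -((|s₀| + |s₁|) * a) ≤ p y * a := by
        have := mul_le_mul_of_nonneg_right h3.1 ha.le
        linarith
      linarith [h1.2, h2.1]) (by
      intro y hy
      have h1 := abs_le.1 (hfst K)
      have h2 := abs_le.1 (hfst (p y))
      have h3 := abs_le.1 (hpb y hy)
      have h4 := le_abs_self c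
      simp only
      have h5 : p y * a ≤ (|s₀| + |s₁|) * a := mul_le_mul_of_nonneg_right h3.2 ha.le
      linarith [h1.1, h2.2]) (by
      intro x _
      have e : p 0 = s₀ := by rw [hp]; simp
      simp only
      rw [e]
      linarith [hs₀ x]) (by
      intro x _
      have e : p 1 = s₁ := by rw [hp]; simp
      simp only
      rw [e]
      linarith [hs₁ x])
  refine ⟨p z.2, z.1, ?_⟩
  ext
  · simp only [Prod.fst_add]
    linarith
  · simp only [Prod.snd_add, add_zero]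
    linarith

/-- (T1), second statement: for `γ (t + 1) = γ t + (n, 0)`, `n ≥ 1`, there are `0 ≤ s ≤ t ≤ 1` and an
integer `q` with `γ t = γ s + (q, 0)` and `q = 1 + j n` or `q = -1 + j n`. -/
theorem chord_int {γ : ℝ → ℝ × ℝ} {n : ℕ} (hn : 0 < n) (hγ : Continuous γ)
    (h : ∀ t, γ (t + 1) = γ t + ((n : ℝ), 0)) : ∃ (s t : ℝ) (q j : ℤ), 0 ≤ s ∧ s ≤ t ∧ t ≤ 1 ∧
      γ t = γ s + ((q : ℝ), 0) ∧ (q = 1 + j * n ∨ q = -1 + j * n) := by
  have hn' : (0 : ℝ) < n := by exact_mod_cast hn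
  obtain ⟨s, t, hst⟩ := chord hn' hγ h 1
  have hs := shift_nat h (Int.fract s) ⌊s⌋
  have ht := shift_nat h (Int.fract t) ⌊t⌋
  rw [Int.fract_add_floor] at hs ht
  rw [hs, ht] at hst
  have e : γ (Int.fract t) = γ (Int.fract s) + (((1 + (⌊s⌋ - ⌊t⌋) * n : ℤ) : ℝ), 0) := by
    have h1 : γ (Int.fract t) = γ (Int.fract s) + (⌊s⌋ : ℝ) • ((n : ℝ), (0 : ℝ)) + (1, 0) -
        (⌊t⌋ : ℝ) • ((n : ℝ), (0 : ℝ)) := by
      rw [← hst]
      abel
    rw [h1]
    ext
    · simp
      ring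
    · simp
  rcases le_total (Int.fract s) (Int.fract t) with hle | hle
  · exact ⟨Int.fract s, Int.fract t, _, ⌊s⌋ - ⌊t⌋, Int.fract_nonneg s, hle,
      (Int.fract_lt_one t).le, e, Or.inl rfl⟩
  · refine ⟨Int.fract t, Int.fract s, -(1 + (⌊s⌋ - ⌊t⌋) * n), ⌊t⌋ - ⌊s⌋, Int.fract_nonneg t, hle,
      (Int.fract_lt_one s).le, ?_, Or.inr (by ring)⟩
    rw [e]
    ext
    · push_cast
      simp only [Prod.fst_add]
      ring
    · simp

end Pool.Agent.DW
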