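import Pool.Agent.DO.OLog

/-!
# MP_74f563_an, n = 2 autonomous (D2), block W, file DW/Idx: the index of an arc from `z` to `z + (1, 0)`

`Idx γ x k`: the curve `γ` on `[0, 1]`, with `γ 1 = γ 0 + (1, 0)`, closed up modulo `(1, 0)`, has index
`k` at `x`: `1` if it passes below `x`, `0` if it passes above `x`.
-/

set_option autoImplicit false

namespace Pool.Agent.DW

open Set Filter Topology

/-- `exp (2 π i (z - x)) - 1`, with `z`, `x` regarded as complex numbers -/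
noncomputable def wf (z x : ℝ × ℝ) : ℂ :=
  Complex.exp (2 * Real.pi * Complex.I * (((z.1 - x.1 : ℝ) : ℂ) + ((z.2 - x.2 : ℝ) : ℂ) * Complex.I))
    - 1

/-- the index of the curve `γ` at `x` is `k` -/
def Idx (γ : ℝ → ℝ × ℝ) (x : ℝ × ℝ) (k : ℤ) : Prop :=
  ∃ F : ℝ → ℂ, ContinuousOn F (Icc 0 1) ∧ (∀ t ∈ Icc (0 : ℝ) 1, Complex.exp (F t) = wf (γ t) x) ∧
    F 1 - F 0 = 2 * Real.pi * Complex.I * k

theorem wf_cont (x : ℝ × ℝ) : Continuous fun z => wf z x := by
  unfold wf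
  fun_prop

theorem wf_zero {z x : ℝ × ℝ} (h : wf z x = 0) : ∃ j : ℤ, z = x + ((j : ℝ), 0) := by
  unfold wf at h
  rw [sub_eq_zero, Complex.exp_eq_one_iff] at h
  obtain ⟨j, hj⟩ := h
  have h1 : (((z.1 - x.1 : ℝ) : ℂ) + ((z.2 - x.2 : ℝ) : ℂ) * Complex.I) = j := by
    have h2 : (2 * Real.pi * Complex.I : ℂ) ≠ 0 := Complex.two_pi_I_ne_zero
    have h3 : (2 * Real.pi * Complex.I : ℂ) *
        (((z.1 - x.1 : ℝ) : ℂ) + ((z.2 - x.2 : ℝ) : ℂ) * Complex.I) =
        (2 * Real.pi * Complex.I : ℂ) * j := by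
      rw [hj]
      ring
    exact mul_left_cancel₀ h2 h3
  have hre := congrArg Complex.re h1
  have him := congrArg Complex.im h1
  rw [Complex.add_re, Complex.ofReal_re, Complex.re_ofReal_mul, Complex.I_re, mul_zero,
    add_zero, Complex.intCast_re] at hre
  rw [Complex.add_im, Complex.ofReal_im, Complex.im_ofReal_mul, Complex.I_im, mul_one, zero_add,
    Complex.intCast_im] at him
  refine ⟨j, ?_⟩
  ext
  · simp only [Prod.fst_add]
    linarith
  · simp only [Prod.snd_add, add_zero]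
    linarith

theorem wf_add_one (z x : ℝ × ℝ) : wf (z + (1, 0)) x = wf z x := by
  unfold wf
  congr 1
  rw [Complex.exp_eq_exp_iff_exists_int]
  refine ⟨1, ?_⟩
  simp only [Prod.fst_add, Prod.snd_add, add_zero]
  push_cast
  ring

theorem Idx.unique {γ : ℝ → ℝ × ℝ} {x : ℝ × ℝ} {k k' : ℤ} (h : Idx γ x k) (h' : Idx γ x k') :
    k = k' := by
  have hpi := Real.pi_pos
  obtain ⟨F, hF, hFe, hF1⟩ := h
  obtain ⟨F', hF', hFe', hF1'⟩ := h'
  have h1 : ∀ t ∈ Icc (0 : ℝ) 1, ∃ n : ℤ, (F t - F' t).im = n * (2 * Real.pi) := by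
    intro t ht
    have h2 : Complex.exp (F t) = Complex.exp (F' t) := by rw [hFe t ht, hFe' t ht]
    rw [Complex.exp_eq_exp_iff_exists_int] at h2
    obtain ⟨n, hn⟩ := h2
    refine ⟨n, ?_⟩
    rw [hn]
    simp
  have h2 := Pool.Agent.DO.const_of_two_pi_Icc zero_le_one
    (f := fun t => (F t - F' t).im) (Complex.continuous_im.comp_continuousOn (hF.sub hF')) h1
  have h3 : ((F 1 - F 0) - (F' 1 - F' 0)).im = 0 := by
    rw [Complex.sub_im, Complex.sub_im] at h2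
    rw [Complex.sub_im, Complex.sub_im, Complex.sub_im]
    linarith
  rw [hF1, hF1'] at h3
  have e : (2 * Real.pi * Complex.I * k - 2 * Real.pi * Complex.I * k' : ℂ) =
      ((2 * Real.pi * (k - k') : ℝ) : ℂ) * Complex.I := by
    push_cast
    ring
  rw [e, Complex.im_ofReal_mul, Complex.I_im, mul_one] at h3
  have h4 : ((k : ℝ) - k') = 0 := (mul_eq_zero.1 h3).resolve_left (by positivity)
  have h5 : (k : ℝ) = k' := by linarith
  exact_mod_cast h5

theorem Idx.exists {γ : ℝ → ℝ × ℝ} {x : ℝ × ℝ} (hγ : ContinuousOn γ (Icc 0 1))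
    (h1 : γ 1 = γ 0 + (1, 0)) (hav : ∀ t ∈ Icc (0 : ℝ) 1, ∀ j : ℤ, γ t ≠ x + ((j : ℝ), 0)) :
    ∃ k, Idx γ x k := by
  have hp : Continuous fun t : ℝ => ((projIcc (0 : ℝ) 1 zero_le_one t : Icc (0 : ℝ) 1) : ℝ) :=
    continuous_subtype_val.comp continuous_projIcc
  have hc : Continuous fun t : ℝ => wf (γ (projIcc (0 : ℝ) 1 zero_le_one t)) x :=
    (wf_cont x).comp (hγ.comp_continuous hp fun t => (projIcc (0 : ℝ) 1 zero_le_one t).2)
  obtain ⟨F, hF, hFe⟩ := Pool.Agent.DO.exists_log_real hc (fun t h0 => by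
    obtain ⟨j, hj⟩ := wf_zero h0
    exact hav _ (projIcc (0 : ℝ) 1 zero_le_one t).2 j hj)
  have hFe' : ∀ t ∈ Icc (0 : ℝ) 1, Complex.exp (F t) = wf (γ t) x := by
    intro t ht
    rw [hFe, projIcc_of_mem zero_le_one ht]
  have h2 : Complex.exp (F 1) = Complex.exp (F 0) := by
    rw [hFe' 1 ⟨zero_le_one, le_rfl⟩, hFe' 0 ⟨le_rfl, zero_le_one⟩, h1, wf_add_one]
  rw [Complex.exp_eq_exp_iff_exists_int] at h2
  obtain ⟨k, hk⟩ := h2
  exact ⟨k, F, hF.continuousOn, hFe', by rw [hk]; ring⟩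

/-- multiplication by a function in the right half plane -/
theorem Idx.mul {γ γ' : ℝ → ℝ × ℝ} {x : ℝ × ℝ} {k : ℤ} (h : Idx γ x k) {q : ℝ → ℂ}
    (hq : ContinuousOn q (Icc 0 1)) (hs : ∀ t ∈ Icc (0 : ℝ) 1, q t ∈ Complex.slitPlane)
    (h1 : q 1 = q 0) (he : ∀ t ∈ Icc (0 : ℝ) 1, wf (γ' t) x = wf (γ t) x * q t) : Idx γ' x k := by
  obtain ⟨F, hF, hFe, hF1⟩ := h
  refine ⟨fun t => F t + Complex.log (q t), hF.add (ContinuousOn.clog hq hs), ?_, ?_⟩
  · intro t ht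
    rw [Complex.exp_add, hFe t ht, Complex.exp_log (Complex.slitPlane_ne_zero (hs t ht)), he t ht]
  · simp only
    rw [h1, ← hF1]
    ring

theorem one_sub_slit {w : ℂ} (hw : ‖w‖ < 1) : 1 - w ∈ Complex.slitPlane := by
  have h := Complex.mem_slitPlane_of_norm_lt_one (z := -w) (by rwa [norm_neg])
  rwa [← sub_eq_add_neg] at h

/-- (W2) The curve passes below `x`: the index is `1`. -/
theorem Idx.below {γ : ℝ → ℝ × ℝ} {x : ℝ × ℝ} (hγ : ContinuousOn γ (Icc 0 1))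
    (h1 : γ 1 = γ 0 + (1, 0)) (h : ∀ t ∈ Icc (0 : ℝ) 1, (γ t).2 < x.2) : Idx γ x 1 := by
  have hpi := Real.pi_pos
  set e : ℝ → ℂ := fun t => 2 * Real.pi * Complex.I *
    ((((γ t).1 - x.1 : ℝ) : ℂ) + (((γ t).2 - x.2 : ℝ) : ℂ) * Complex.I) with he
  have hec : ContinuousOn e (Icc 0 1) := by
    have c1 : ContinuousOn (fun t => (((γ t).1 - x.1 : ℝ) : ℂ)) (Icc 0 1) :=
      Complex.continuous_ofReal.comp_continuousOn
        ((continuous_fst.comp_continuousOn hγ).sub continuousOn_const)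
    have c2 : ContinuousOn (fun t => (((γ t).2 - x.2 : ℝ) : ℂ)) (Icc 0 1) :=
      Complex.continuous_ofReal.comp_continuousOn
        ((continuous_snd.comp_continuousOn hγ).sub continuousOn_const)
    exact continuousOn_const.mul (c1.add (c2.mul continuousOn_const))
  have hre : ∀ t, (e t).re = -(2 * Real.pi * ((γ t).2 - x.2)) := by
    intro t
    have : e t = ((-(2 * Real.pi * ((γ t).2 - x.2)) : ℝ) : ℂ) +
        ((2 * Real.pi * ((γ t).1 - x.1) : ℝ) : ℂ) * Complex.I := by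
      rw [he]
      simp only
      push_cast
      linear_combination (2 * Real.pi * ((γ t).2 - x.2) : ℂ) * Complex.I_sq
    rw [this]
    simp
  have hn : ∀ t ∈ Icc (0 : ℝ) 1, ‖Complex.exp (-e t)‖ < 1 := by
    intro t ht
    rw [Complex.norm_exp, Complex.neg_re, hre, neg_neg, Real.exp_lt_one_iff]
    have := h t ht
    nlinarith
  have he1 : e 1 = e 0 + 2 * Real.pi * Complex.I := by
    rw [he]
    simp only
    rw [h1]
    simp only [Prod.fst_add, Prod.snd_add, add_zero]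
    push_cast
    ring
  refine ⟨fun t => e t + Complex.log (1 - Complex.exp (-e t)), ?_, ?_, ?_⟩
  · refine hec.add (ContinuousOn.clog ?_ fun t ht => one_sub_slit (hn t ht))
    exact continuousOn_const.sub hec.neg.cexp
  · intro t ht
    rw [Complex.exp_add, Complex.exp_log (Complex.slitPlane_ne_zero (one_sub_slit (hn t ht))),
      mul_sub, ← Complex.exp_add, add_neg_cancel, Complex.exp_zero, mul_one]
    rfl
  · simp only
    rw [he1, neg_add, Complex.exp_add, Complex.exp_neg (2 * Real.pi * Complex.I),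
      Complex.exp_two_pi_mul_I]
    push_cast
    ring_nf

/-- (W2) The curve passes above `x`: the index is `0`. -/
theorem Idx.above {γ : ℝ → ℝ × ℝ} {x : ℝ × ℝ} (hγ : ContinuousOn γ (Icc 0 1))
    (h1 : γ 1 = γ 0 + (1, 0)) (h : ∀ t ∈ Icc (0 : ℝ) 1, x.2 < (γ t).2) : Idx γ x 0 := by
  have hpi := Real.pi_pos
  have hn : ∀ t ∈ Icc (0 : ℝ) 1, ‖wf (γ t) x + 1‖ < 1 := by
    intro t ht
    have e1 : wf (γ t) x + 1 = Complex.exp (((-(2 * Real.pi * ((γ t).2 - x.2)) : ℝ) : ℂ) +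
        ((2 * Real.pi * ((γ t).1 - x.1) : ℝ) : ℂ) * Complex.I) := by
      unfold wf
      rw [sub_add_cancel]
      congr 1
      push_cast
      linear_combination (2 * Real.pi * ((γ t).2 - x.2) : ℂ) * Complex.I_sq
    rw [e1, Complex.norm_exp]
    have e2 : ((((-(2 * Real.pi * ((γ t).2 - x.2)) : ℝ) : ℂ) +
        ((2 * Real.pi * ((γ t).1 - x.1) : ℝ) : ℂ) * Complex.I)).re =
        -(2 * Real.pi * ((γ t).2 - x.2)) := by simp
    rw [e2, Real.exp_lt_one_iff]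
    have := h t ht
    nlinarith
  have hc : ContinuousOn (fun t => wf (γ t) x) (Icc 0 1) := (wf_cont x).comp_continuousOn hγ
  refine ⟨fun t => Complex.log (1 - (wf (γ t) x + 1)) + Real.pi * Complex.I, ?_, ?_, ?_⟩
  · refine ContinuousOn.add (ContinuousOn.clog ?_ fun t ht => one_sub_slit (hn t ht))
      continuousOn_const
    exact continuousOn_const.sub (hc.add continuousOn_const)
  · intro t ht
    rw [Complex.exp_add, Complex.exp_log (Complex.slitPlane_ne_zero (one_sub_slit (hn t ht))),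
      Complex.exp_pi_mul_I]
    ring
  · simp only
    rw [h1, wf_add_one]
    push_cast
    ring

/-- (W1) Stability. -/
theorem Idx.stable {γ : ℝ → ℝ × ℝ} {x : ℝ × ℝ} (hγ : ContinuousOn γ (Icc 0 1))
    (h1 : γ 1 = γ 0 + (1, 0)) (hav : ∀ t ∈ Icc (0 : ℝ) 1, ∀ j : ℤ, γ t ≠ x + ((j : ℝ), 0)) :
    ∃ δ > 0, ∀ γ' : ℝ → ℝ × ℝ, ContinuousOn γ' (Icc 0 1) → γ' 1 = γ' 0 + (1, 0) →
      (∀ t ∈ Icc (0 : ℝ) 1, dist (γ' t) (γ t) < δ) → ∀ k, Idx γ x k → Idx γ' x k := by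
  have hc : ContinuousOn (fun t => wf (γ t) x) (Icc 0 1) := (wf_cont x).comp_continuousOn hγ
  have hne : ∀ t ∈ Icc (0 : ℝ) 1, wf (γ t) x ≠ 0 := fun t ht h0 => by
    obtain ⟨j, hj⟩ := wf_zero h0
    exact hav t ht j hj
  obtain ⟨t0, ht0, hmin⟩ := isCompact_Icc.exists_isMinOn ⟨(0 : ℝ), le_rfl, zero_le_one⟩ hc.norm
  have hμ : 0 < ‖wf (γ t0) x‖ := norm_pos_iff.2 (hne t0 ht0)
  have hK : IsCompact (Metric.cthickening 1 (γ '' Icc 0 1)) :=
    (isCompact_Icc.image_of_continuousOn hγ).cthickening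
  have huc := hK.uniformContinuousOn_of_continuous (wf_cont x).continuousOn
  obtain ⟨δ, hδ, hδ'⟩ := Metric.uniformContinuousOn_iff.1 huc ‖wf (γ t0) x‖ hμ
  refine ⟨min δ 1, lt_min hδ one_pos, fun γ' hγ' h1' hd k hk => ?_⟩
  have hq : ∀ t ∈ Icc (0 : ℝ) 1, ‖wf (γ' t) x - wf (γ t) x‖ < ‖wf (γ t) x‖ := by
    intro t ht
    have hm : γ t ∈ Metric.cthickening 1 (γ '' Icc 0 1) :=
      Metric.self_subset_cthickening _ (mem_image_of_mem γ ht)
    have hm' : γ' t ∈ Metric.cthickening 1 (γ '' Icc 0 1) :=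
      Metric.mem_cthickening_of_dist_le _ _ _ _ (mem_image_of_mem γ ht)
        ((hd t ht).le.trans (min_le_right _ _))
    have h2 := hδ' _ hm' _ hm ((hd t ht).trans_le (min_le_left _ _))
    rw [dist_eq_norm] at h2
    exact h2.trans_le (hmin ht)
  refine hk.mul (q := fun t => wf (γ' t) x / wf (γ t) x)
    (((wf_cont x).comp_continuousOn hγ').div hc hne) ?_ ?_ ?_
  · intro t ht
    have e : wf (γ' t) x / wf (γ t) x = 1 + (wf (γ' t) x - wf (γ t) x) / wf (γ t) x := by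
      have := hne t ht
      field_simp
      ring
    rw [e]
    apply Complex.mem_slitPlane_of_norm_lt_one
    rw [norm_div, div_lt_one (norm_pos_iff.2 (hne t ht))]
    exact hq t ht
  · rw [h1, h1', wf_add_one, wf_add_one]
  · intro t ht
    have := hne t ht
    field_simp

/-- **(T8), topological part.**  A family of arcs `c q`, `q = (t, p) ∈ K`, from `Γ t` to
`Γ t + (1, 0)`, which avoid `x + ℤ (1, 0)`; at one time all pass below `x`, at another time all pass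
above `x`. Then at some time there are arcs of different indices. -/
theorem two_arcs {P : Type} [MetricSpace P] {K : Set (ℝ × P)}
    (hprop : ∀ a b : ℝ, IsCompact (K ∩ (Icc a b ×ˢ (univ : Set P)))) (hne : ∀ t, ∃ p, (t, p) ∈ K)
    {c : ℝ × P → ℝ → ℝ × ℝ} (hc : Continuous fun q : (ℝ × P) × ℝ => c q.1 q.2) {x : ℝ × ℝ}
    (h1 : ∀ q ∈ K, c q 1 = c q 0 + (1, 0))
    (hav : ∀ q ∈ K, ∀ s ∈ Icc (0 : ℝ) 1, ∀ j : ℤ, c q s ≠ x + ((j : ℝ), 0))
    (hbelow : ∃ t, ∀ p, (t, p) ∈ K → ∀ s ∈ Icc (0 : ℝ) 1, (c (t, p) s).2 < x.2)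
    (habove : ∃ t, ∀ p, (t, p) ∈ K → ∀ s ∈ Icc (0 : ℝ) 1, x.2 < (c (t, p) s).2) :
    ∃ t p p' k k', (t, p) ∈ K ∧ (t, p') ∈ K ∧ Idx (c (t, p)) x k ∧ Idx (c (t, p')) x k' ∧ k ≤ 0 ∧
      1 ≤ k' := by
  have hcc : ∀ q, Continuous (c q) := fun q =>
    hc.comp (f := fun s : ℝ => (q, s)) (by fun_prop)
  have hex : ∀ q ∈ K, ∃ k, Idx (c q) x k := fun q hq =>
    Idx.exists (hcc q).continuousOn (h1 q hq) (hav q hq)
  -- the index is locally constant on `K`
  have hloc : ∀ q ∈ K, ∀ k, Idx (c q) x k → ∀ᶠ q' in 𝓝 q, q' ∈ K → Idx (c q') x k := by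
    intro q hq k hk
    obtain ⟨δ, hδ, hst⟩ := Idx.stable (hcc q).continuousOn (h1 q hq) (hav q hq)
    have h2 : ∀ᶠ q' in 𝓝 q, ∀ s ∈ Icc (0 : ℝ) 1, dist (c q' s) (c q s) < δ := by
      have h3 : Continuous fun z : (ℝ × P) × ℝ => dist (c z.1 z.2) (c q z.2) :=
        hc.dist ((hcc q).comp continuous_snd)
      have h4 : IsOpen {z : (ℝ × P) × ℝ | dist (c z.1 z.2) (c q z.2) < δ} :=
        isOpen_lt h3 continuous_const
      obtain ⟨u, v, hu, hv, hqu, hIv, huv⟩ := generalized_tube_lemma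
        (isCompact_singleton (x := q)) (isCompact_Icc (a := (0 : ℝ)) (b := 1)) h4 (by
          rintro ⟨q', s⟩ ⟨hq', hs⟩
          rw [mem_singleton_iff] at hq'
          subst hq'
          simp only [mem_setOf_eq, dist_self]
          exact hδ)
      filter_upwards [hu.mem_nhds (hqu rfl)] with q' hq' s hs
      exact huv (mk_mem_prod hq' (hIv hs))
    filter_upwards [h2] with q' hq' hqK
    exact hst _ (hcc q').continuousOn (h1 q' hqK) hq' k hk
  -- the two closed sets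
  have hclosed : ∀ R : ℤ → Prop, IsClosed {t | ∃ p k, (t, p) ∈ K ∧ Idx (c (t, p)) x k ∧ R k} := by
    intro R
    rw [← isSeqClosed_iff_isClosed]
    intro u t hu hut
    choose p k hK hk hR using hu
    have hev : ∀ᶠ i in atTop, u i ∈ Icc (t - 1) (t + 1) :=
      hut.eventually (Icc_mem_nhds (by linarith) (by linarith))
    obtain ⟨N, hN⟩ := eventually_atTop.1 hev
    obtain ⟨q, hq, φ, hφ, hlim⟩ := (hprop (t - 1) (t + 1)).tendsto_subseq
      (x := fun i => (u (i + N), p (i + N)))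
      (fun i => ⟨hK _, hN _ (Nat.le_add_left _ _), mem_univ _⟩)
    have hq1 : q.1 = t := by
      have a1 : Tendsto (fun i => u (φ i + N)) atTop (𝓝 q.1) :=
        (continuous_fst.tendsto q).comp hlim
      have a2 : Tendsto (fun i => u (φ i + N)) atTop (𝓝 t) := by
        refine hut.comp ?_
        exact tendsto_atTop_mono (fun i => Nat.le_add_right _ _) hφ.tendsto_atTop
      exact tendsto_nhds_unique a1 a2
    obtain ⟨k0, hk0⟩ := hex q hq.1
    have h5 := hlim.eventually (hloc q hq.1 k0 hk0)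
    obtain ⟨i, hi⟩ := h5.exists
    have h6 : Idx (c (u (φ i + N), p (φ i + N))) x k0 := hi (hK _)
    have h7 : k (φ i + N) = k0 := (hk _).unique h6
    refine ⟨q.2, k0, ?_, ?_, ?_⟩
    · rw [← hq1]
      exact hq.1
    · rw [← hq1]
      exact hk0
    · rw [← h7]
      exact hR _
  have hS0 := hclosed fun k => k ≤ 0
  have hS1 := hclosed fun k => 1 ≤ k
  have hcov : (univ : Set ℝ) ⊆ {t | ∃ p k, (t, p) ∈ K ∧ Idx (c (t, p)) x k ∧ k ≤ 0} ∪
      {t | ∃ p k, (t, p) ∈ K ∧ Idx (c (t, p)) x k ∧ 1 ≤ k} := by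
    intro t _
    obtain ⟨p, hp⟩ := hne t
    obtain ⟨k, hk⟩ := hex _ hp
    rcases le_or_gt k 0 with h | h
    · exact Or.inl ⟨p, k, hp, hk, h⟩
    · exact Or.inr ⟨p, k, hp, hk, by omega⟩
  obtain ⟨t, -, ⟨p, k, hp, hk, hk0⟩, ⟨p', k', hp', hk', hk1⟩⟩ :=
    isPreconnected_closed_iff.1 (isPreconnected_univ (α := ℝ)) _ _ hS0 hS1 hcov (by
      obtain ⟨t, ht⟩ := habove
      obtain ⟨p, hp⟩ := hne t
      exact ⟨t, mem_univ _, p, 0, hp, Idx.above (hcc _).continuousOn (h1 _ hp) (ht p hp), le_rfl⟩)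
      (by
      obtain ⟨t, ht⟩ := hbelow
      obtain ⟨p, hp⟩ := hne t
      exact ⟨t, mem_univ _, p, 1, hp, Idx.below (hcc _).continuousOn (h1 _ hp) (ht p hp), le_rfl⟩)
  exact ⟨t, p, p', k, k', hp, hp', hk, hk', hk0, hk1⟩

end Pool.Agent.DW
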